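import Pool.Agent.W448.AD.D
set_option autoImplicit false
open Finset

/-! The bound. -/

namespace Pool.Agent.W448.AD

variable {n : ℕ}

def Low (n s : ℕ) : Finset (Finset (Fin n)) :=
  (range (s + 1)).biUnion (fun i => powersetCard i (univ : Finset (Fin n)))

theorem mem_Low (s : ℕ) (T : Finset (Fin n)) : T ∈ Low n s ↔ T.card ≤ s := by
  unfold Low
  simp only [mem_biUnion, mem_range, mem_powersetCard, subset_univ, true_and]
  constructor
  · rintro ⟨i, h1, h2⟩; omega
  · intro h; exact ⟨T.card, by omega, rfl⟩

theorem card_Low (s : ℕ) : (Low n s).card = ∑ i ∈ range (s + 1), n.choose i := by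
  unfold Low
  rw [card_biUnion]
  · apply sum_congr rfl
    intro i _
    rw [card_powersetCard, card_univ, Fintype.card_fin]
  · intro i _ j _ hij
    exact pairwise_disjoint_powersetCard _ hij

theorem kap_congr (s : ℕ) (f g : Finset (Fin n) → ℚ) (h : ∀ T : Finset (Fin n), T.card = s → f T = g T) :
    kap s f f = kap s g g := by
  unfold kap
  apply sum_congr rfl
  intro T hT
  apply sum_congr rfl
  intro T' hT'
  rw [h T (mem_powersetCard.1 hT).2, h T' (mem_powersetCard.1 hT').2]

theorem core (s d : ℕ) (hN : Neg n s d) (F : Finset (Finset (Fin n)))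
    (hanti : ∀ A ∈ F, ∀ B ∈ F, A ≠ B → ¬ A ⊆ B)
    (hd : ∀ A ∈ F, ∀ B ∈ F, (symmDiff A B).card ≤ 2 * s + 1) :
    F.card + d ≤ ∑ i ∈ range (s + 1), n.choose i := by
  classical
  obtain ⟨V, h1, h2, h3⟩ := hN
  let E : (F → ℚ) → Finset (Fin n) → ℚ := fun c X => if h : X ∈ F then c ⟨X, h⟩ else 0
  have hEadd : ∀ c d : F → ℚ, E (c + d) = E c + E d := by
    intro c d; funext X; simp only [E, Pi.add_apply]; split_ifs <;> simp
  have hEsmul : ∀ (q : ℚ) (c : F → ℚ), E (q • c) = q • E c := by
    intro q c; funext X; simp only [E, Pi.smul_apply, smul_eq_mul]; split_ifs <;> simp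
  have htradd : ∀ (c d : Finset (Fin n) → ℚ) (T : Finset (Fin n)),
      tr (c + d) T = tr c T + tr d T := by
    intro c d T; unfold tr; rw [← sum_add_distrib]; apply sum_congr rfl; intro X _
    simp only [Pi.add_apply]; ring
  have htrsmul : ∀ (q : ℚ) (c : Finset (Fin n) → ℚ) (T : Finset (Fin n)),
      tr (q • c) T = q * tr c T := by
    intro q c T; unfold tr; rw [mul_sum]; apply sum_congr rfl; intro X _
    simp only [Pi.smul_apply, smul_eq_mul]; ring
  let Ψ : ((F → ℚ) × V) →ₗ[ℚ] (Low n s → ℚ) :=
    { toFun := fun p T => tr (E p.1) T - (p.2 : Finset (Fin n) → ℚ) T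
      map_add' := by
        intro p q
        funext T
        simp only [Prod.fst_add, Prod.snd_add, Pi.add_apply, Submodule.coe_add]
        rw [hEadd, htradd]; ring
      map_smul' := by
        intro q p
        funext T
        simp only [Prod.smul_fst, Prod.smul_snd, Pi.smul_apply, SetLike.val_smul, smul_eq_mul,
          RingHom.id_apply]
        rw [hEsmul, htrsmul]; ring }
  have hinj : Function.Injective Ψ := by
    rw [← LinearMap.ker_eq_bot, LinearMap.ker_eq_bot']
    rintro ⟨c, v⟩ hcv
    have hT : ∀ T : Finset (Fin n), T.card ≤ s → tr (E c) T = (v : Finset (Fin n) → ℚ) T := by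
      intro T hT
      have h4 := congrFun hcv ⟨T, (mem_Low s T).2 hT⟩
      have h5 : tr (E c) T - (v : Finset (Fin n) → ℚ) T = 0 := h4
      linarith
    have hlow : ∀ T : Finset (Fin n), T.card < s → tr (E c) T = 0 := by
      intro T hlt
      rw [hT T hlt.le]
      exact h2 v v.2 T (by omega)
    have hq := quad_low s (E c) hlow
    have hk : kap s (tr (E c)) (tr (E c)) =
        kap s (v : Finset (Fin n) → ℚ) (v : Finset (Fin n) → ℚ) :=
      kap_congr s _ _ (fun T h => hT T h.le)
    have hle : (-1) ^ s * kap s (v : Finset (Fin n) → ℚ) (v : Finset (Fin n) → ℚ) ≤ 0 := by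
      by_cases hv : (v : Finset (Fin n) → ℚ) = 0
      · rw [hv]
        have h6 : kap s (0 : Finset (Fin n) → ℚ) 0 = 0 := by
          unfold kap; simp
        rw [h6, mul_zero]
      · exact (h3 v v.2 hv).le
    have hsq : ∑ X, ∑ Y, E c X * E c Y * NN s X Y = ∑ X, E c X ^ 2 := by
      apply sum_congr rfl
      intro X _
      rw [sum_eq_single X]
      · rw [NN_self]; ring
      · intro Y _ hYX
        by_cases hX : X ∈ F
        · by_cases hY : Y ∈ F
          · rw [NN_zero s X Y ?_ ?_ (hd X hX Y hY), mul_zero]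
            · rw [sdiff_nonempty]
              exact hanti X hX Y hY (Ne.symm hYX)
            · rw [sdiff_nonempty]
              exact hanti Y hY X hX hYX
          · have : E c Y = 0 := by simp only [E]; rw [dif_neg hY]
            rw [this]; ring
        · have : E c X = 0 := by simp only [E]; rw [dif_neg hX]
          rw [this]; ring
      · intro h; exact absurd (mem_univ _) h
    have hzero : ∑ X, E c X ^ 2 ≤ 0 := by
      rw [← hsq, hq, hk]
      exact mul_nonpos_of_nonneg_of_nonpos (by positivity) hle
    have hEz : ∀ X, E c X = 0 := by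
      have h7 : ∑ X, E c X ^ 2 = 0 := le_antisymm hzero (sum_nonneg (fun _ _ => sq_nonneg _))
      rw [sum_eq_zero_iff_of_nonneg (fun _ _ => sq_nonneg _)] at h7
      intro X
      have := h7 X (mem_univ _)
      exact pow_eq_zero_iff (two_ne_zero) |>.1 this
    have hc : c = 0 := by
      funext X
      have := hEz X
      simp only [E] at this
      rw [dif_pos X.2] at this
      exact this
    have hv : v = 0 := by
      apply Subtype.ext
      funext T
      by_cases hTc : T.card = s
      · rw [← hT T hTc.le]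
        unfold tr
        apply sum_eq_zero
        intro X _
        rw [hEz X, zero_mul]
      · rw [h2 v v.2 T hTc]; rfl
    rw [hc, hv]; rfl
  have h4 := LinearMap.finrank_le_finrank_of_injective hinj
  rw [Module.finrank_prod, Module.finrank_pi, Module.finrank_pi, Fintype.card_coe,
    Fintype.card_coe, card_Low] at h4
  omega

/-- numerics -/
theorem numer (s : ℕ) (hn : 2 * (s + 1) ≤ n) :
    ∑ i ∈ range (s + 2), n.choose i = n.choose (s + 1) +
      2 * ∑ i ∈ range ((s + 1) / 2), n.choose (s + 1 - 2 * (i + 1)) + pd n s := by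
  induction s using Nat.strong_induction_on with
  | _ s ih =>
    have hpd : ∀ t, 2 * t ≤ n → pd n t ≤ n.choose t := fun t ht => (both t ht).2.2
    match s with
    | 0 => simp [pd, sum_range_succ]; ring
    | 1 =>
      have h1 : pd n 1 = n.choose 1 - 1 := rfl
      have h2 : 1 ≤ n.choose 1 := by rw [Nat.choose_one_right]; omega
      simp only [sum_range_succ, range_zero, sum_empty, zero_add]
      norm_num
      rw [h1]
      rw [Nat.choose_one_right] at *
      omega
    | s + 2 =>
      have h3 := ih s (by omega) (by omega)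
      have e1 : (s + 2 + 1) / 2 = (s + 1) / 2 + 1 := by omega
      rw [e1, sum_range_succ' (fun i => n.choose (s + 2 + 1 - 2 * (i + 1)))]
      have e2 : ∀ i, s + 2 + 1 - 2 * (i + 1 + 1) = s + 1 - 2 * (i + 1) := by intro i; omega
      simp_rw [e2]
      have e3 : s + 2 + 1 - 2 * (0 + 1) = s + 1 := by omega
      rw [e3]
      have e4 : ∑ i ∈ range (s + 2 + 2), n.choose i =
          ∑ i ∈ range (s + 2), n.choose i + n.choose (s + 2) + n.choose (s + 3) := by
        rw [sum_range_succ, sum_range_succ]
      have e5 : pd n (s + 2) = n.choose (s + 2) - (n.choose (s + 1) - pd n s) := rfl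
      have e6 : pd n s ≤ n.choose (s + 1) :=
        (hpd s (by omega)).trans (Nat.choose_le_succ_of_lt_half_left (by omega))
      have e7 : n.choose (s + 1) ≤ n.choose (s + 2) :=
        Nat.choose_le_succ_of_lt_half_left (by omega)
      rw [e4, h3, e5]
      have e8 : n.choose (s + 2 + 1) = n.choose (s + 3) := rfl
      rw [e8]
      omega

theorem bound (s : ℕ) (hn : 2 * s ≤ n) (F : Finset (Finset (Fin n)))
    (hanti : ∀ A ∈ F, ∀ B ∈ F, A ≠ B → ¬ A ⊆ B)
    (hd : ∀ A ∈ F, ∀ B ∈ F, (symmDiff A B).card ≤ 2 * s + 1) :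
    F.card ≤ n.choose s + 2 * ∑ i ∈ range (s / 2), n.choose (s - 2 * (i + 1)) := by
  cases s with
  | zero =>
    have := core 0 0 (neg_zero n) F hanti hd
    simpa using this
  | succ s =>
    have h1 := core (s + 1) (pd n s) ((both (s + 1) hn).2.1 s rfl) F hanti hd
    have h2 : ∑ i ∈ range (s + 1 + 1), n.choose i = n.choose (s + 1) +
      2 * ∑ i ∈ range ((s + 1) / 2), n.choose (s + 1 - 2 * (i + 1)) + pd n s := numer s hn
    omega

end Pool.Agent.W448.AD
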