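import Pool.Agent.W448.AD.B
import Pool.Agent.H173R2.AntiDiamE
set_option autoImplicit false
open Finset

/-! Three sizes. -/

namespace Pool.Agent.W448.AD

open Pool.Agent.H173R2.AntiDiam

variable {n : ℕ}

theorem key' (r a : ℕ) (hra : r ≤ a) (g : Finset (Fin n) → ℚ)
    (hg : ∀ X, X.card ≠ a → g X = 0)
    (h0 : ∀ S : Finset (Fin n), S.card = r → ∑ X with S ⊆ X, g X = 0)
    (B : Finset (Fin n)) : ∑ X, g X * P r (B \ X).card = 0 := by
  classical
  have h1 : ∀ I : Finset (Fin n), I.card ≤ r → ∑ X : Finset (Fin n), (if Disjoint X I then g X else 0) = 0 := by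
    intro I hI
    have e := disj_expand a g hg I
    have e2 : ∑ T ∈ powersetCard a (univ : Finset (Fin n)), (if Disjoint T I then g T else 0) =
        ∑ X : Finset (Fin n), (if Disjoint X I then g X else 0) := by
      apply sum_subset (subset_univ _)
      intro X _ hX
      rw [mem_powersetCard] at hX
      have : X.card ≠ a := fun h => hX ⟨subset_univ _, h⟩
      rw [hg X this]; simp
    rw [← e2, e]
    apply sum_eq_zero
    intro J hJ
    have := card_le_card (mem_powerset.1 hJ)
    rw [up_zero r a hra g hg h0 J (by omega), mul_zero]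
  have h2 : ∀ X : Finset (Fin n), g X * P r (B \ X).card =
      ∑ j ∈ range (r + 1), ∑ I ∈ powersetCard j B, (-1 : ℚ) ^ j * (if Disjoint X I then g X else 0) := by
    intro X
    unfold P
    rw [mul_sum]
    apply sum_congr rfl
    intro j _
    rw [← mul_sum, ← sum_filter]
    have h3 : (powersetCard j B).filter (fun I => Disjoint X I) = powersetCard j (B \ X) := by
      ext I
      simp only [mem_filter, mem_powersetCard, subset_sdiff]
      constructor
      · rintro ⟨⟨h1, h2⟩, h3⟩; exact ⟨⟨h1, h3.symm⟩, h2⟩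
      · rintro ⟨⟨h1, h3⟩, h2⟩; exact ⟨⟨h1, h2⟩, h3.symm⟩
    rw [h3, sum_const, card_powersetCard, nsmul_eq_mul]
    ring
  simp_rw [h2]
  rw [sum_comm]
  apply sum_eq_zero
  intro j hj
  rw [sum_comm]
  apply sum_eq_zero
  intro I hI
  rw [← mul_sum, h1 I (by rw [(mem_powersetCard.1 hI).2]; exact Nat.lt_succ_iff.1 (mem_range.1 hj)),
    mul_zero]

/-- disjointness version of the uniform case -/
theorem low_zero (m a : ℕ) (hma : a ≤ m) (hm : m ≤ n) (F : Finset (Finset (Fin n)))
    (hF : ∀ A ∈ F, ∀ B ∈ F, A.card = a → B.card = a → (A \ B).card ≤ n - m)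
    (w : Finset (Fin n) → ℚ) (hw : ∀ X, X.card ≠ a → w X = 0) (hwF : ∀ X, X ∉ F → w X = 0)
    (h0 : ∀ Y : Finset (Fin n), Y.card = m → ∑ X with X ⊆ Y, w X = 0) : ∀ X, w X = 0 := by
  classical
  have hle : ∀ A : Finset (Fin n), A.card ≤ n := by
    intro A
    have := card_le_univ A
    rwa [Fintype.card_fin] at this
  have hc : ∀ A : Finset (Fin n), Aᶜ.card = n - A.card := by
    intro A; rw [card_compl, Fintype.card_fin]
  have h1 := uniform (n - m) (n - a) (by omega) (F.image (fun A => Aᶜ)) ?_ (fun X => w Xᶜ) ?_ ?_ ?_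
  · intro X
    have := h1 Xᶜ
    simpa using this
  · intro A hA B hB hAc hBc
    rw [mem_image] at hA hB
    obtain ⟨A', hA', rfl⟩ := hA
    obtain ⟨B', hB', rfl⟩ := hB
    rw [hc] at hAc hBc
    have e : A'ᶜ \ B'ᶜ = B' \ A' := by
      ext x; simp only [mem_sdiff, mem_compl, not_not]; tauto
    rw [e]
    have := hle A'
    have := hle B'
    exact hF B' hB' A' hA' (by omega) (by omega)
  · intro X hX
    apply hw
    rw [hc]
    have := hle X
    omega
  · intro X hX
    apply hwF
    intro h
    apply hX
    rw [mem_image]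
    exact ⟨Xᶜ, h, compl_compl X⟩
  · intro S hS
    have h2 := h0 Sᶜ (by rw [hc]; have := hle S; omega)
    rw [← h2, sum_filter, sum_filter]
    refine sum_bij' (fun X _ => Xᶜ) (fun X _ => Xᶜ) (by simp) (by simp) (by simp) (by simp) ?_
    intro X _
    show (if S ⊆ X then w Xᶜ else 0) = if Xᶜ ⊆ Sᶜ then w Xᶜ else 0
    by_cases h : S ⊆ X
    · rw [if_pos h, if_pos (compl_subset_compl.2 h)]
    · rw [if_neg h, if_neg (fun h' => h (compl_subset_compl.1 h'))]

/-- the transfer to level `m` -/
def Tm (a m c : ℕ) : (Finset (Fin n) → ℚ) →ₗ[ℚ] (Finset (Fin n) → ℚ) where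
  toFun w := fun Y => if Y.card = m then
    ((∑ X with (X.card = a ∧ X ⊆ Y), w X) + w Y + ∑ X with (X.card = c ∧ Y ⊆ X), w X) else 0
  map_add' f g := by
    funext Y
    simp only [Pi.add_apply]
    split_ifs
    · rw [sum_add_distrib, sum_add_distrib]; ring
    · simp
  map_smul' q f := by
    funext Y
    simp only [Pi.smul_apply, smul_eq_mul, RingHom.id_apply]
    split_ifs
    · rw [← mul_sum, ← mul_sum]; ring
    · simp

theorem core3 (s a m c : ℕ) (hsm : s ≤ m) (hms : m + s ≤ n) (ham : a < m) (hmc : m < c)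
    (hac : c + a ≤ 2 * m) (F : Finset (Finset (Fin n)))
    (hanti : ∀ A ∈ F, ∀ B ∈ F, A ⊆ B → A = B)
    (hd : ∀ A ∈ F, ∀ B ∈ F, (A \ B).card + (B \ A).card ≤ 2 * s + 1)
    (hsz : ∀ A ∈ F, A.card = a ∨ A.card = m ∨ A.card = c)
    (w : Finset (Fin n) → ℚ) (hwF : ∀ X, X ∉ F → w X = 0)
    (h0 : ∀ S : Finset (Fin n), S.card = s → ∑ Y with S ⊆ Y, Tm a m c w Y = 0) :
    ∀ X, w X = 0 := by
  classical
  have hbal : ∀ A B : Finset (Fin n), A.card + (B \ A).card = B.card + (A \ B).card := by
    intro A B
    have h1 := card_sdiff_add_card_inter A B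
    have h2 := card_sdiff_add_card_inter B A
    rw [inter_comm] at h2
    omega
  have hne : ∀ A ∈ F, ∀ B ∈ F, A ≠ B → 1 ≤ (A \ B).card := by
    intro A hA B hB hAB
    rw [Nat.one_le_iff_ne_zero, Ne, card_eq_zero, sdiff_eq_empty_iff_subset]
    exact fun h => hAB (hanti A hA B hB h)
  have hT0 : ∀ Y : Finset (Fin n), Y.card ≠ m → Tm a m c w Y = 0 := by
    intro Y hY; show (if Y.card = m then _ else _) = _; rw [if_neg hY]
  have hT1 : ∀ Y : Finset (Fin n), Y.card = m → Tm a m c w Y =
      ((∑ X with (X.card = a ∧ X ⊆ Y), w X) + w Y + ∑ X with (X.card = c ∧ Y ⊆ X), w X) := by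
    intro Y hY; show (if Y.card = m then _ else _) = _; rw [if_pos hY]
  -- members of size a
  set ψ : Finset (Fin n) → ℚ := fun Y => ∑ X with (X.card = a ∧ X ⊆ Y), w X with hψ
  set χ : Finset (Fin n) → ℚ := fun Y => ∑ X with (X.card = c ∧ Y ⊆ X), w X with hχ
  have hψn : ∀ Y, ψ Y ≠ 0 → ∃ X ∈ F, X.card = a ∧ X ⊆ Y := by
    intro Y hY
    by_contra h
    push Not at h
    apply hY
    apply sum_eq_zero
    intro X hX
    rw [mem_filter] at hX
    exact hwF X (fun hXF => h X hXF hX.2.1 hX.2.2)
  have hχn : ∀ Y, χ Y ≠ 0 → ∃ X ∈ F, X.card = c ∧ Y ⊆ X := by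
    intro Y hY
    by_contra h
    push Not at h
    apply hY
    apply sum_eq_zero
    intro X hX
    rw [mem_filter] at hX
    exact hwF X (fun hXF => h X hXF hX.2.1 hX.2.2)
  have hPle : ∀ y, 1 ≤ y → y ≤ s → P s y = 0 := fun y h1 h2 => P_pos s y h1 h2
  have hk1 : ∀ X' ∈ F, X'.card = a → ∑ Y with (Y.card = m ∧ X' ⊆ Y), ψ Y = 0 := by
    intro X' hX' hXa
    have hk := key' s m hsm (Tm a m c w) hT0 h0 X'
    rw [← hk, sum_filter]
    apply sum_congr rfl
    intro Y _
    by_cases hYm : Y.card = m
    · rw [hT1 Y hYm]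
      have e2 : w Y * P s (X' \ Y).card = 0 := by
        by_cases hY : Y ∈ F
        · have hXY : X' ≠ Y := fun h => by rw [h] at hXa; omega
          have h1 := hne X' hX' Y hY hXY
          have h2 := hd X' hX' Y hY
          have h3 := hbal X' Y
          rw [hPle _ h1 (by omega), mul_zero]
        · rw [hwF Y hY, zero_mul]
      have e3 : χ Y * P s (X' \ Y).card = 0 := by
        by_cases hc0 : χ Y = 0
        · rw [hc0, zero_mul]
        · obtain ⟨X, hX, hXc, hYX⟩ := hχn Y hc0
          have hXX : X' ≠ X := fun h => by rw [h] at hXa; omega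
          have h1 := hne X' hX' X hX hXX
          have h2 := hd X' hX' X hX
          have h3 := hbal X' X
          have h4 : (X' \ X).card ≤ (X' \ Y).card := card_le_card (sdiff_subset_sdiff subset_rfl hYX)
          have h5 : (X' \ Y).card ≤ (X' \ X).card + (X \ Y).card := by
            refine (card_le_card ?_).trans (card_union_le _ _)
            intro x hx
            rw [mem_sdiff] at hx
            rw [mem_union, mem_sdiff, mem_sdiff]
            by_cases hxX : x ∈ X
            · exact Or.inr ⟨hxX, hx.2⟩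
            · exact Or.inl ⟨hx.1, hxX⟩
          have h6 : (X \ Y).card = c - m := by rw [card_sdiff_of_subset hYX, hXc, hYm]
          rw [hPle _ (by omega) (by omega), mul_zero]
      have e1 : ψ Y * P s (X' \ Y).card = if X' ⊆ Y then ψ Y else 0 := by
        by_cases hc0 : ψ Y = 0
        · rw [hc0, zero_mul]; simp
        · by_cases hs : X' ⊆ Y
          · rw [if_pos hs, sdiff_eq_empty_iff_subset.2 hs, card_empty, P_zero, mul_one]
          · obtain ⟨X, hX, hXc, hXY⟩ := hψn Y hc0
            have h2 := hd X' hX' X hX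
            have h3 := hbal X' X
            have h4 : (X' \ Y).card ≤ (X' \ X).card := card_le_card (sdiff_subset_sdiff subset_rfl hXY)
            have h5 : 1 ≤ (X' \ Y).card := by
              rw [Nat.one_le_iff_ne_zero, Ne, card_eq_zero, sdiff_eq_empty_iff_subset]
              exact hs
            rw [if_neg hs, hPle _ h5 (by omega), mul_zero]
      have e4 : (if Y.card = m ∧ X' ⊆ Y then ψ Y else 0) = if X' ⊆ Y then ψ Y else 0 := by
        simp [hYm]
      rw [e4, add_mul, add_mul]
      show _ = ψ Y * _ + w Y * _ + χ Y * _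
      rw [e1, e2, e3]; ring
    · rw [hT0 Y hYm, zero_mul, if_neg (fun h => hYm h.1)]
  have hψ0 : ∀ Y : Finset (Fin n), Y.card = m → ψ Y = 0 := by
    have h1 : ∑ Y with Y.card = m, ψ Y * ψ Y = 0 := by
      have h2 : ∑ Y with Y.card = m, ψ Y * ψ Y =
          ∑ X with X.card = a, w X * ∑ Y with (Y.card = m ∧ X ⊆ Y), ψ Y := by
        simp_rw [mul_sum]
        rw [sum_comm' (t' := (univ : Finset (Finset (Fin n))).filter (fun Y => Y.card = m))
          (s' := fun Y => (univ : Finset (Finset (Fin n))).filter (fun X => X.card = a ∧ X ⊆ Y))]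
        · apply sum_congr rfl
          intro Y _
          rw [← sum_mul]
        · intro X Y
          simp only [mem_filter, mem_univ, true_and]
          tauto
      rw [h2]
      apply sum_eq_zero
      intro X hX
      rw [mem_filter] at hX
      by_cases hXF : X ∈ F
      · rw [hk1 X hXF hX.2, mul_zero]
      · rw [hwF X hXF, zero_mul]
    rw [sum_eq_zero_iff_of_nonneg (fun _ _ => mul_self_nonneg _)] at h1
    intro Y hY
    exact mul_self_eq_zero.1 (h1 Y (mem_filter.2 ⟨mem_univ _, hY⟩))
  have hwa : ∀ X : Finset (Fin n), X.card = a → w X = 0 := by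
    intro X hX
    have h1 := low_zero m a ham.le (by omega) F ?_ (fun X => if X.card = a then w X else 0)
      (fun X hX => by simp [hX]) (fun X hX => by simp [hwF X hX]) ?_ X
    · simpa [hX] using h1
    · intro A hA B hB hAa hBa
      have h2 := hd A hA B hB
      have h3 := hbal A B
      omega
    · intro Y hY
      refine Eq.trans ?_ (hψ0 Y hY)
      show _ = ∑ X with (X.card = a ∧ X ⊆ Y), w X
      rw [← sum_filter, filter_filter]
      apply sum_congr
      · ext X
        simp only [mem_filter, mem_univ, true_and]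
        tauto
      · intro _ _; rfl
  have hk2 : ∀ X' ∈ F, X'.card = c → ∑ Y with (Y.card = m ∧ Y ⊆ X'), χ Y = 0 := by
    intro X' hX' hXa
    have hk := key s m hsm (Tm a m c w) hT0 h0 X'
    rw [← hk, sum_filter]
    apply sum_congr rfl
    intro Y _
    by_cases hYm : Y.card = m
    · rw [hT1 Y hYm]
      have e2 : w Y * P s (Y \ X').card = 0 := by
        by_cases hY : Y ∈ F
        · have hXY : Y ≠ X' := fun h => by rw [h] at hYm; omega
          have h1 := hne Y hY X' hX' hXY
          have h2 := hd Y hY X' hX'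
          have h3 := hbal Y X'
          rw [hPle _ h1 (by omega), mul_zero]
        · rw [hwF Y hY, zero_mul]
      have e3 : ψ Y * P s (Y \ X').card = 0 := by
        rw [hψ0 Y hYm, zero_mul]
      have e1 : χ Y * P s (Y \ X').card = if Y ⊆ X' then χ Y else 0 := by
        by_cases hc0 : χ Y = 0
        · rw [hc0, zero_mul]; simp
        · by_cases hs : Y ⊆ X'
          · rw [if_pos hs, sdiff_eq_empty_iff_subset.2 hs, card_empty, P_zero, mul_one]
          · obtain ⟨X, hX, hXc, hXY⟩ := hχn Y hc0
            have h2 := hd X hX X' hX'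
            have h3 := hbal X X'
            have h4 : (Y \ X').card ≤ (X \ X').card := card_le_card (sdiff_subset_sdiff hXY subset_rfl)
            have h5 : 1 ≤ (Y \ X').card := by
              rw [Nat.one_le_iff_ne_zero, Ne, card_eq_zero, sdiff_eq_empty_iff_subset]
              exact hs
            rw [if_neg hs, hPle _ h5 (by omega), mul_zero]
      have e4 : (if Y.card = m ∧ Y ⊆ X' then χ Y else 0) = if Y ⊆ X' then χ Y else 0 := by
        simp [hYm]
      rw [e4, add_mul, add_mul]
      show _ = ψ Y * _ + w Y * _ + χ Y * _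
      rw [e1, e2, e3]; ring
    · rw [hT0 Y hYm, zero_mul, if_neg (fun h => hYm h.1)]
  have hχ0 : ∀ Y : Finset (Fin n), Y.card = m → χ Y = 0 := by
    have h1 : ∑ Y with Y.card = m, χ Y * χ Y = 0 := by
      have h2 : ∑ Y with Y.card = m, χ Y * χ Y =
          ∑ X with X.card = c, w X * ∑ Y with (Y.card = m ∧ Y ⊆ X), χ Y := by
        simp_rw [mul_sum]
        rw [sum_comm' (t' := (univ : Finset (Finset (Fin n))).filter (fun Y => Y.card = m))
          (s' := fun Y => (univ : Finset (Finset (Fin n))).filter (fun X => X.card = c ∧ Y ⊆ X))]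
        · apply sum_congr rfl
          intro Y _
          rw [← sum_mul]
        · intro X Y
          simp only [mem_filter, mem_univ, true_and]
          tauto
      rw [h2]
      apply sum_eq_zero
      intro X hX
      rw [mem_filter] at hX
      by_cases hXF : X ∈ F
      · rw [hk2 X hXF hX.2, mul_zero]
      · rw [hwF X hXF, zero_mul]
    rw [sum_eq_zero_iff_of_nonneg (fun _ _ => mul_self_nonneg _)] at h1
    intro Y hY
    exact mul_self_eq_zero.1 (h1 Y (mem_filter.2 ⟨mem_univ _, hY⟩))
  have hwc : ∀ X : Finset (Fin n), X.card = c → w X = 0 := by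
    intro X hX
    have h1 := uniform m c hmc.le F ?_ (fun X => if X.card = c then w X else 0)
      (fun X hX => by simp [hX]) (fun X hX => by simp [hwF X hX]) ?_ X
    · simpa [hX] using h1
    · intro A hA B hB hAa hBa
      have h2 := hd A hA B hB
      have h3 := hbal A B
      omega
    · intro Y hY
      refine Eq.trans ?_ (hχ0 Y hY)
      show _ = ∑ X with (X.card = c ∧ Y ⊆ X), w X
      rw [← sum_filter, filter_filter]
      apply sum_congr
      · ext X
        simp only [mem_filter, mem_univ, true_and]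
        tauto
      · intro _ _; rfl
  have hwm : ∀ X : Finset (Fin n), Tm a m c w X = 0 := by
    apply uniform s m hsm F ?_ _ hT0 ?_ h0
    · intro A hA B hB hAa hBa
      have h2 := hd A hA B hB
      have h3 := hbal A B
      omega
    · intro X hX
      by_cases hXm : X.card = m
      · rw [hT1 X hXm]
        show ψ X + w X + χ X = 0
        rw [hψ0 X hXm, hχ0 X hXm, hwF X hX]; ring
      · exact hT0 X hXm
  intro X
  by_cases hX : X ∈ F
  · rcases hsz X hX with h | h | h
    · exact hwa X h
    · have h1 := hwm X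
      rw [hT1 X h] at h1
      have h2 : ψ X + w X + χ X = 0 := h1
      rw [hψ0 X h, hχ0 X h] at h2
      linarith
    · exact hwc X h
  · exact hwF X hX

theorem bound3 (s a m c : ℕ) (hsm : s ≤ m) (hms : m + s ≤ n) (ham : a < m) (hmc : m < c)
    (hac : c + a ≤ 2 * m) (F : Finset (Finset (Fin n)))
    (hanti : ∀ A ∈ F, ∀ B ∈ F, A ⊆ B → A = B)
    (hd : ∀ A ∈ F, ∀ B ∈ F, (A \ B).card + (B \ A).card ≤ 2 * s + 1)
    (hsz : ∀ A ∈ F, A.card = a ∨ A.card = m ∨ A.card = c) : F.card ≤ n.choose s := by
  classical
  let E : (F → ℚ) →ₗ[ℚ] (Finset (Fin n) → ℚ) :=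
    { toFun := fun c X => if h : X ∈ F then c ⟨X, h⟩ else 0
      map_add' := by
        intro c d; funext X; simp only [Pi.add_apply]; split_ifs <;> simp
      map_smul' := by
        intro q c; funext X
        simp only [Pi.smul_apply, smul_eq_mul, RingHom.id_apply]; split_ifs <;> simp }
  have hE : ∀ (d : F → ℚ) (X : Finset (Fin n)) (h : X ∈ F), E d X = d ⟨X, h⟩ := by
    intro d X h
    show (if h : X ∈ F then d ⟨X, h⟩ else 0) = _
    rw [dif_pos h]
  have hE0 : ∀ (d : F → ℚ) (X : Finset (Fin n)), X ∉ F → E d X = 0 := by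
    intro d X h
    show (if h : X ∈ F then d ⟨X, h⟩ else 0) = _
    rw [dif_neg h]
  let L := ((Dn n s).comp (Tm a m c)).comp E
  have hinj : Function.Injective L := by
    rw [← LinearMap.ker_eq_bot, LinearMap.ker_eq_bot']
    intro d hd0
    have h1 := core3 s a m c hsm hms ham hmc hac F hanti hd hsz (E d) (hE0 d) ?_
    · funext X
      have := h1 X
      rw [hE d X X.2] at this
      exact this
    · intro S hS
      exact congrFun hd0 ⟨S, mem_powersetCard.2 ⟨subset_univ _, hS⟩⟩
  have h4 := LinearMap.finrank_le_finrank_of_injective hinj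
  rw [Module.finrank_pi, Module.finrank_pi, Fintype.card_coe, Fintype.card_coe,
    card_powersetCard, card_univ, Fintype.card_fin] at h4
  exact h4

theorem sorted3 (r a b c : ℕ) (hn : 2 * r + 1 ≤ n) (hab : a < b) (hbc : b < c)
    (F : Finset (Finset (Fin n)))
    (hanti : ∀ A ∈ F, ∀ B ∈ F, A ⊆ B → A = B)
    (hd : ∀ A ∈ F, ∀ B ∈ F, (A \ B).card + (B \ A).card ≤ 2 * r + 1)
    (hsz : ∀ A ∈ F, A.card = a ∨ A.card = b ∨ A.card = c) : F.card ≤ n.choose r := by
  classical
  have hbal : ∀ A B : Finset (Fin n), A.card + (B \ A).card = B.card + (A \ B).card := by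
    intro A B
    have h1 := card_sdiff_add_card_inter A B
    have h2 := card_sdiff_add_card_inter B A
    rw [inter_comm] at h2
    omega
  have hmd : ∀ A ∈ F, ∀ B ∈ F, A.card ≤ B.card → (A \ B).card ≤ r := by
    intro A hA B hB h
    have h1 := hd A hA B hB
    have h2 := hbal A B
    omega
  by_cases h1 : b ≤ r
  · apply two_above r c c hn F hanti hmd
    intro A hA
    have := hsz A hA
    omega
  by_cases h2 : n - r ≤ b
  · apply two_below r a a hn F hanti hmd
    intro A hA
    have := hsz A hA
    omega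
  by_cases h3 : c + a ≤ 2 * b
  · exact bound3 r a b c (by omega) (by omega) hab hbc h3 F hanti hd hsz
  · have hle : ∀ A : Finset (Fin n), A.card ≤ n := by
      intro A
      have := card_le_univ A
      rwa [Fintype.card_fin] at this
    have hc : ∀ A : Finset (Fin n), Aᶜ.card = n - A.card := by
      intro A; rw [card_compl, Fintype.card_fin]
    have hsd : ∀ A B : Finset (Fin n), Aᶜ \ Bᶜ = B \ A := by
      intro A B
      ext x; simp only [mem_sdiff, mem_compl, not_not]; tauto
    by_cases hcn : c ≤ n
    · rw [← card_image_of_injective F (compl_injective (α := Finset (Fin n)))]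
      apply bound3 r (n - c) (n - b) (n - a) (by omega) (by omega) (by omega) (by omega) (by omega)
      · intro A hA B hB hAB
        rw [mem_image] at hA hB
        obtain ⟨A', hA', rfl⟩ := hA
        obtain ⟨B', hB', rfl⟩ := hB
        rw [hanti B' hB' A' hA' (compl_subset_compl.1 hAB)]
      · intro A hA B hB
        rw [mem_image] at hA hB
        obtain ⟨A', hA', rfl⟩ := hA
        obtain ⟨B', hB', rfl⟩ := hB
        rw [hsd, hsd]
        have := hd A' hA' B' hB'
        omega
      · intro A hA
        rw [mem_image] at hA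
        obtain ⟨A', hA', rfl⟩ := hA
        rw [hc]
        have := hsz A' hA'
        have := hle A'
        omega
    · apply two_above r a b hn F hanti hmd
      intro A hA
      have := hsz A hA
      have := hle A
      omega

theorem three_sizes (r a b c : ℕ) (hn : 2 * r + 1 ≤ n) (F : Finset (Finset (Fin n)))
    (hanti : ∀ A ∈ F, ∀ B ∈ F, A ⊆ B → A = B)
    (hd : ∀ A ∈ F, ∀ B ∈ F, (A \ B).card + (B \ A).card ≤ 2 * r + 1)
    (hsz : ∀ A ∈ F, A.card = a ∨ A.card = b ∨ A.card = c) : F.card ≤ n.choose r := by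
  classical
  have hbal : ∀ A B : Finset (Fin n), A.card + (B \ A).card = B.card + (A \ B).card := by
    intro A B
    have h1 := card_sdiff_add_card_inter A B
    have h2 := card_sdiff_add_card_inter B A
    rw [inter_comm] at h2
    omega
  have hmd : ∀ A ∈ F, ∀ B ∈ F, A.card ≤ B.card → (A \ B).card ≤ r := by
    intro A hA B hB h
    have h1 := hd A hA B hB
    have h2 := hbal A B
    omega
  rcases lt_trichotomy a b with h1 | h1 | h1
  · rcases lt_trichotomy b c with h2 | h2 | h2
    · exact sorted3 r a b c hn h1 h2 F hanti hd (fun A hA => by have := hsz A hA; omega)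
    · exact two_above r a b hn F hanti hmd (fun A hA => by have := hsz A hA; omega)
    · rcases lt_trichotomy a c with h3 | h3 | h3
      · exact sorted3 r a c b hn h3 h2 F hanti hd (fun A hA => by have := hsz A hA; omega)
      · exact two_above r a b hn F hanti hmd (fun A hA => by have := hsz A hA; omega)
      · exact sorted3 r c a b hn h3 h1 F hanti hd (fun A hA => by have := hsz A hA; omega)
  · exact two_above r a c hn F hanti hmd (fun A hA => by have := hsz A hA; omega)
  · rcases lt_trichotomy a c with h2 | h2 | h2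
    · exact sorted3 r b a c hn h1 h2 F hanti hd (fun A hA => by have := hsz A hA; omega)
    · exact two_above r a b hn F hanti hmd (fun A hA => by have := hsz A hA; omega)
    · rcases lt_trichotomy b c with h3 | h3 | h3
      · exact sorted3 r b c a hn h3 h2 F hanti hd (fun A hA => by have := hsz A hA; omega)
      · exact two_above r a b hn F hanti hmd (fun A hA => by have := hsz A hA; omega)
      · exact sorted3 r c b a hn h3 h1 F hanti hd (fun A hA => by have := hsz A hA; omega)

end Pool.Agent.W448.AD
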