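import Pool.Agent.H173R2.AntiDiamA
set_option autoImplicit false
open Finset

/-! Disjointness forms on the levels of the cube, their behaviour under lifting. -/

namespace Pool.Agent.W448.AD

variable {n : ℕ}

/-- the form `∑ f T g T'` over disjoint pairs of `s`-sets. -/
def kap (s : ℕ) (f g : Finset (Fin n) → ℚ) : ℚ :=
  ∑ T ∈ powersetCard s (univ : Finset (Fin n)), ∑ T' ∈ powersetCard s (univ : Finset (Fin n)),
    if Disjoint T T' then f T * g T' else 0

/-- lifting from level `s` to level `s + 1`. -/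
def Lf (s : ℕ) : (Finset (Fin n) → ℚ) →ₗ[ℚ] (Finset (Fin n) → ℚ) where
  toFun h := fun T => if T.card = s + 1 then ∑ x ∈ T, h (T.erase x) else 0
  map_add' f g := by
    funext T
    simp only [Pi.add_apply]
    split_ifs
    · rw [sum_add_distrib]
    · simp
  map_smul' q f := by
    funext T
    simp only [Pi.smul_apply, smul_eq_mul, RingHom.id_apply]
    split_ifs
    · rw [mul_sum]
    · simp

theorem Lf_apply (s : ℕ) (h : Finset (Fin n) → ℚ) (T : Finset (Fin n)) :
    Lf s h T = if T.card = s + 1 then ∑ x ∈ T, h (T.erase x) else 0 := rfl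

theorem sum_erase (s : ℕ) (F : Finset (Fin n) → Fin n → ℚ) :
    ∑ T ∈ powersetCard (s + 1) (univ : Finset (Fin n)), ∑ x ∈ T, F (T.erase x) x =
      ∑ I ∈ powersetCard s (univ : Finset (Fin n)), ∑ x ∈ Iᶜ, F I x := by
  classical
  rw [sum_sigma', sum_sigma']
  refine sum_bij' (fun p _ => ⟨p.1.erase p.2, p.2⟩) (fun p _ => ⟨insert p.2 p.1, p.2⟩) ?_ ?_ ?_ ?_ ?_
  · rintro ⟨T, x⟩ h
    simp only [mem_sigma, mem_powersetCard, subset_univ, true_and] at h ⊢
    refine ⟨?_, by simp⟩
    rw [card_erase_of_mem h.2, h.1]; omega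
  · rintro ⟨I, x⟩ h
    simp only [mem_sigma, mem_powersetCard, subset_univ, true_and, mem_compl] at h ⊢
    refine ⟨?_, by simp⟩
    rw [card_insert_of_notMem h.2, h.1]
  · rintro ⟨T, x⟩ h
    simp only [mem_sigma, mem_powersetCard, subset_univ, true_and] at h ⊢
    simp [insert_erase h.2]
  · rintro ⟨I, x⟩ h
    simp only [mem_sigma, mem_powersetCard, subset_univ, true_and, mem_compl] at h ⊢
    simp [erase_insert h.2]
  · rintro ⟨T, x⟩ h
    rfl

/-- sums of a lift over the sets avoiding `A`. -/
theorem lift_disj (s : ℕ) (f : Finset (Fin n) → ℚ) (A : Finset (Fin n)) :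
    ∑ T ∈ powersetCard (s + 1) (univ : Finset (Fin n)), (if Disjoint T A then Lf s f T else 0) =
      ((n - s - A.card : ℕ) : ℚ) *
        ∑ I ∈ powersetCard s (univ : Finset (Fin n)), (if Disjoint I A then f I else 0) := by
  classical
  have h1 : ∀ T ∈ powersetCard (s + 1) (univ : Finset (Fin n)),
      (if Disjoint T A then Lf s f T else 0) =
      ∑ x ∈ T, (if Disjoint (T.erase x) A ∧ x ∉ A then f (T.erase x) else 0) := by
    intro T hT
    rw [mem_powersetCard] at hT
    split_ifs with h
    · rw [Lf_apply, if_pos hT.2]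
      apply sum_congr rfl
      intro x hx
      rw [if_pos]
      exact ⟨disjoint_of_subset_left (erase_subset _ _) h, disjoint_left.1 h hx⟩
    · symm
      apply sum_eq_zero
      intro x hx
      rw [if_neg]
      rintro ⟨h2, h3⟩
      apply h
      rw [← insert_erase hx, disjoint_insert_left]
      exact ⟨h3, h2⟩
  rw [sum_congr rfl h1, sum_erase s (fun I x => if Disjoint I A ∧ x ∉ A then f I else 0), mul_sum]
  apply sum_congr rfl
  intro I hI
  rw [mem_powersetCard] at hI
  by_cases h : Disjoint I A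
  · rw [if_pos h]
    have h2 : ∑ x ∈ Iᶜ, (if Disjoint I A ∧ x ∉ A then f I else 0) =
        ∑ x ∈ (I ∪ A)ᶜ, f I := by
      rw [← sum_filter]
      apply sum_congr
      · ext x
        simp only [mem_filter, mem_compl, mem_union, not_or]
        tauto
      · intro x _; rfl
    rw [h2, sum_const, nsmul_eq_mul, card_compl, card_union_of_disjoint h, hI.2, Fintype.card_fin]
    congr 2
    omega
  · rw [if_neg h, mul_zero]
    apply sum_eq_zero
    intro x _
    rw [if_neg]
    tauto

theorem kap_eq (s : ℕ) (f g : Finset (Fin n) → ℚ) :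
    kap s f g = ∑ T' ∈ powersetCard s (univ : Finset (Fin n)), g T' *
      ∑ T ∈ powersetCard s (univ : Finset (Fin n)), (if Disjoint T T' then f T else 0) := by
  unfold kap
  rw [sum_comm]
  apply sum_congr rfl
  intro T' _
  rw [mul_sum]
  apply sum_congr rfl
  intro T _
  split_ifs
  · ring
  · ring

theorem kap_symm (s : ℕ) (f g : Finset (Fin n) → ℚ) : kap s f g = kap s g f := by
  unfold kap
  rw [sum_comm]
  apply sum_congr rfl
  intro T _
  apply sum_congr rfl
  intro T' _
  by_cases h : Disjoint T T'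
  · rw [if_pos h, if_pos h.symm]; ring
  · rw [if_neg h, if_neg (fun h' => h h'.symm)]

theorem kap_add_left (s : ℕ) (f f' g : Finset (Fin n) → ℚ) :
    kap s (f + f') g = kap s f g + kap s f' g := by
  unfold kap
  rw [← sum_add_distrib]
  apply sum_congr rfl
  intro T _
  rw [← sum_add_distrib]
  apply sum_congr rfl
  intro T' _
  split_ifs
  · simp only [Pi.add_apply]; ring
  · ring

theorem kap_add_right (s : ℕ) (f g g' : Finset (Fin n) → ℚ) :
    kap s f (g + g') = kap s f g + kap s f g' := by
  rw [kap_symm, kap_add_left, kap_symm s g, kap_symm s g']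

/-- the left argument lifted -/
theorem kap_lift_left (s : ℕ) (f g : Finset (Fin n) → ℚ) :
    kap (s + 1) (Lf s f) g = ((n - s - (s + 1) : ℕ) : ℚ) *
      ∑ I ∈ powersetCard s (univ : Finset (Fin n)), f I *
        ∑ T' ∈ powersetCard (s + 1) (univ : Finset (Fin n)), (if Disjoint T' I then g T' else 0) := by
  rw [kap_eq]
  have h1 : ∀ T' ∈ powersetCard (s + 1) (univ : Finset (Fin n)), g T' *
      ∑ T ∈ powersetCard (s + 1) (univ : Finset (Fin n)), (if Disjoint T T' then Lf s f T else 0) =
      ((n - s - (s + 1) : ℕ) : ℚ) * ∑ I ∈ powersetCard s (univ : Finset (Fin n)),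
        (if Disjoint T' I then f I * g T' else 0) := by
    intro T' hT'
    rw [lift_disj, (mem_powersetCard.1 hT').2, mul_left_comm, mul_sum]
    congr 1
    apply sum_congr rfl
    intro I _
    by_cases h : Disjoint T' I
    · rw [if_pos h, if_pos h.symm]; ring
    · rw [if_neg h, if_neg (fun h' => h h'.symm)]; ring
  rw [sum_congr rfl h1, ← mul_sum, sum_comm]
  congr 1
  apply sum_congr rfl
  intro I _
  rw [mul_sum]
  apply sum_congr rfl
  intro T' _
  split_ifs <;> ring

theorem kap_lift (s : ℕ) (f g : Finset (Fin n) → ℚ) :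
    kap (s + 1) (Lf s f) (Lf s g) = ((n - s - (s + 1) : ℕ) : ℚ) * ((n - s - s : ℕ) : ℚ) *
      kap s f g := by
  rw [kap_lift_left]
  have h1 : ∀ I ∈ powersetCard s (univ : Finset (Fin n)), f I *
        ∑ T' ∈ powersetCard (s + 1) (univ : Finset (Fin n)),
          (if Disjoint T' I then Lf s g T' else 0) =
      ((n - s - s : ℕ) : ℚ) * (f I * ∑ J ∈ powersetCard s (univ : Finset (Fin n)),
        (if Disjoint J I then g J else 0)) := by
    intro I hI
    rw [lift_disj, (mem_powersetCard.1 hI).2]
    ring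
  rw [sum_congr rfl h1, ← mul_sum, kap_symm s f g, kap_eq s g f]
  ring

end Pool.Agent.W448.AD
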