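import Pool.Agent.W448.AD.A
set_option autoImplicit false
open Finset

/-! Dimensions of definite subspaces of the disjointness forms. -/

namespace Pool.Agent.W448.AD

variable {n : ℕ}

/-- inclusion-exclusion -/
theorem disj_expand (s : ℕ) (f : Finset (Fin n) → ℚ) (hf : ∀ X, X.card ≠ s → f X = 0)
    (A : Finset (Fin n)) :
    ∑ T ∈ powersetCard s (univ : Finset (Fin n)), (if Disjoint T A then f T else 0) =
      ∑ J ∈ A.powerset, (-1 : ℚ) ^ J.card * ∑ X with J ⊆ X, f X := by
  classical
  have h1 : ∑ T ∈ powersetCard s (univ : Finset (Fin n)), (if Disjoint T A then f T else 0) =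
      ∑ X : Finset (Fin n), (if Disjoint X A then f X else 0) := by
    apply sum_subset (subset_univ _)
    intro X _ hX
    rw [mem_powersetCard] at hX
    have : X.card ≠ s := fun h => hX ⟨subset_univ _, h⟩
    rw [hf X this]; simp
  rw [h1]
  have h2 : ∀ X : Finset (Fin n), (if Disjoint X A then f X else 0) =
      ∑ J ∈ A.powerset, (if J ⊆ X then (-1 : ℚ) ^ J.card * f X else 0) := by
    intro X
    rw [← sum_filter]
    have h3 : A.powerset.filter (fun J => J ⊆ X) = (A ∩ X).powerset := by
      ext J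
      simp only [mem_filter, mem_powerset, subset_inter_iff]
    rw [h3, ← sum_mul]
    have h4 : ∑ J ∈ (A ∩ X).powerset, (-1 : ℚ) ^ J.card = if A ∩ X = ∅ then 1 else 0 := by
      have := Finset.sum_powerset_neg_one_pow_card (x := A ∩ X)
      have h5 : ((∑ m ∈ (A ∩ X).powerset, (-1 : ℤ) ^ m.card : ℤ) : ℚ) =
          ((if A ∩ X = ∅ then 1 else 0 : ℤ) : ℚ) := by rw [this]
      push_cast at h5
      exact h5
    rw [h4]
    by_cases h : Disjoint X A
    · rw [if_pos h, if_pos (by rw [inter_comm]; exact disjoint_iff_inter_eq_empty.1 h), one_mul]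
    · rw [if_neg h, if_neg (by rw [inter_comm]; exact fun h' => h (disjoint_iff_inter_eq_empty.2 h')),
        zero_mul]
  simp_rw [h2]
  rw [sum_comm]
  apply sum_congr rfl
  intro J _
  rw [mul_sum, sum_filter]

/-- harmonic functions on level `s` -/
def Harm (n s : ℕ) : Submodule ℚ (Finset (Fin n) → ℚ) where
  carrier := {f | (∀ X, X.card ≠ s → f X = 0) ∧
    ∀ J : Finset (Fin n), J.card < s → ∑ X with J ⊆ X, f X = 0}
  add_mem' {f g} hf hg := by
    refine ⟨fun X hX => ?_, fun J hJ => ?_⟩
    · simp [hf.1 X hX, hg.1 X hX]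
    · simp only [Pi.add_apply]
      rw [sum_add_distrib, hf.2 J hJ, hg.2 J hJ, add_zero]
  zero_mem' := ⟨fun X _ => rfl, fun J _ => by simp⟩
  smul_mem' c f hf := by
    refine ⟨fun X hX => ?_, fun J hJ => ?_⟩
    · simp [hf.1 X hX]
    · simp only [Pi.smul_apply, smul_eq_mul]
      rw [← mul_sum, hf.2 J hJ, mul_zero]

theorem harm_disj_lt (s : ℕ) (f : Finset (Fin n) → ℚ) (hf : f ∈ Harm n s) (A : Finset (Fin n))
    (hA : A.card < s) :
    ∑ T ∈ powersetCard s (univ : Finset (Fin n)), (if Disjoint T A then f T else 0) = 0 := by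
  rw [disj_expand s f hf.1]
  apply sum_eq_zero
  intro J hJ
  rw [mem_powerset] at hJ
  have := card_le_card hJ
  rw [hf.2 J (by omega), mul_zero]

theorem harm_disj_eq (s : ℕ) (f : Finset (Fin n) → ℚ) (hf : f ∈ Harm n s) (A : Finset (Fin n))
    (hA : A.card = s) :
    ∑ T ∈ powersetCard s (univ : Finset (Fin n)), (if Disjoint T A then f T else 0) =
      (-1) ^ s * f A := by
  classical
  rw [disj_expand s f hf.1, sum_eq_single A]
  · rw [hA]
    congr 1
    rw [sum_filter, sum_eq_single A]
    · simp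
    · intro X _ hX
      split_ifs with h
      · apply hf.1
        intro hc
        exact hX (eq_of_subset_of_card_le h (by omega)).symm
      · rfl
    · simp
  · intro J hJ hne
    rw [mem_powerset] at hJ
    have h1 := card_le_card hJ
    have h2 : J.card ≠ A.card := fun h => hne (eq_of_subset_of_card_le hJ (by omega))
    rw [hf.2 J (by omega), mul_zero]
  · intro h
    exact absurd (mem_powerset.2 subset_rfl) h

theorem harm_kap (s : ℕ) (f : Finset (Fin n) → ℚ) (hf : f ∈ Harm n s) :
    (-1) ^ s * kap s f f = ∑ T ∈ powersetCard s (univ : Finset (Fin n)), f T ^ 2 := by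
  rw [kap_eq, mul_sum]
  apply sum_congr rfl
  intro T hT
  rw [harm_disj_eq s f hf T (mem_powersetCard.1 hT).2]
  have : ((-1 : ℚ) ^ s) * (-1) ^ s = 1 := by
    rw [← mul_pow]; norm_num
  calc (-1 : ℚ) ^ s * (f T * ((-1) ^ s * f T)) = ((-1 : ℚ) ^ s * (-1) ^ s) * f T ^ 2 := by ring
    _ = f T ^ 2 := by rw [this, one_mul]

theorem harm_pos (s : ℕ) (f : Finset (Fin n) → ℚ) (hf : f ∈ Harm n s) (h0 : f ≠ 0) :
    0 < (-1) ^ s * kap s f f := by
  rw [harm_kap s f hf]
  obtain ⟨X, hX⟩ : ∃ X, f X ≠ 0 := by
    by_contra h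
    push Not at h
    exact h0 (funext h)
  have hXc : X.card = s := by
    by_contra h
    exact hX (hf.1 X h)
  apply sum_pos' (fun T _ => sq_nonneg _)
  exact ⟨X, mem_powersetCard.2 ⟨subset_univ _, hXc⟩, by positivity⟩

theorem cross (s : ℕ) (f g : Finset (Fin n) → ℚ) (hf : f ∈ Harm n (s + 1)) :
    kap (s + 1) (Lf s g) f = 0 := by
  rw [kap_lift_left]
  have : ∑ I ∈ powersetCard s (univ : Finset (Fin n)), g I *
        ∑ T' ∈ powersetCard (s + 1) (univ : Finset (Fin n)),
          (if Disjoint T' I then f T' else 0) = 0 := by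
    apply sum_eq_zero
    intro I hI
    rw [harm_disj_lt (s + 1) f hf I (by rw [(mem_powersetCard.1 hI).2]; omega), mul_zero]
  rw [this, mul_zero]

theorem finrank_le_map {E G : Type} [AddCommGroup E] [Module ℚ E] [AddCommGroup G] [Module ℚ G]
    [FiniteDimensional ℚ E] [FiniteDimensional ℚ G] (L : E →ₗ[ℚ] G) (V : Submodule ℚ E)
    (h : ∀ v ∈ V, L v = 0 → v = 0) : Module.finrank ℚ V ≤ Module.finrank ℚ (V.map L) := by
  have hinj : Function.Injective ((L.domRestrict V).codRestrict (V.map L)
      (fun x => Submodule.mem_map_of_mem x.2)) := by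
    rw [← LinearMap.ker_eq_bot, LinearMap.ker_eq_bot']
    intro v hv
    have h1 : L v = 0 := congrArg Subtype.val hv
    exact Subtype.ext (h v v.2 h1)
  exact LinearMap.finrank_le_finrank_of_injective hinj

/-- extension by zero of functions on level `s` -/
def ext (n s : ℕ) : ((powersetCard s (univ : Finset (Fin n)) : Finset (Finset (Fin n))) → ℚ)
    →ₗ[ℚ] (Finset (Fin n) → ℚ) where
  toFun c := fun X => if h : X ∈ powersetCard s (univ : Finset (Fin n)) then c ⟨X, h⟩ else 0
  map_add' c d := by
    funext X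
    simp only [Pi.add_apply]
    split_ifs <;> simp
  map_smul' q c := by
    funext X
    simp only [Pi.smul_apply, smul_eq_mul, RingHom.id_apply]
    split_ifs <;> simp

theorem ext_inj (n s : ℕ) : Function.Injective (ext n s) := by
  intro c d h
  funext X
  have h1 := congrFun h X
  have h2 : ∀ e : ((powersetCard s (univ : Finset (Fin n)) : Finset (Finset (Fin n))) → ℚ),
      ext n s e X = e X := by
    intro e
    show (if h : (X : Finset (Fin n)) ∈ powersetCard s (univ : Finset (Fin n)) then e ⟨X, h⟩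
      else 0) = e X
    rw [dif_pos X.2]
  rw [h2, h2] at h1
  exact h1

/-- sums over supersets -/
def Dn (n s : ℕ) : (Finset (Fin n) → ℚ) →ₗ[ℚ]
    ((powersetCard s (univ : Finset (Fin n)) : Finset (Finset (Fin n))) → ℚ) where
  toFun f := fun J => ∑ X with (J : Finset (Fin n)) ⊆ X, f X
  map_add' c d := by
    funext X
    simp only [Pi.add_apply]
    rw [sum_add_distrib]
  map_smul' q c := by
    funext X
    simp only [Pi.smul_apply, smul_eq_mul, RingHom.id_apply]
    rw [mul_sum]

theorem finrank_harm_succ (s : ℕ) :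
    n.choose (s + 1) - n.choose s ≤ Module.finrank ℚ (Harm n (s + 1)) := by
  classical
  set M := (Dn n s).comp (ext n (s + 1)) with hM
  have h1 := LinearMap.finrank_range_add_finrank_ker M
  have h2 : Module.finrank ℚ (LinearMap.range M) ≤ n.choose s := by
    refine (Submodule.finrank_le _).trans ?_
    rw [Module.finrank_pi, Fintype.card_coe, card_powersetCard, card_univ, Fintype.card_fin]
  rw [Module.finrank_pi, Fintype.card_coe, card_powersetCard, card_univ, Fintype.card_fin] at h1
  have h3 : (LinearMap.ker M).map (ext n (s + 1)) ≤ Harm n (s + 1) := by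
    rintro f ⟨c, hc, rfl⟩
    have hsupp : ∀ X : Finset (Fin n), X.card ≠ s + 1 → ext n (s + 1) c X = 0 := by
      intro X hX
      simp [ext, hX]
    refine ⟨hsupp, ?_⟩
    intro J hJ
    apply Pool.Agent.H173R2.AntiDiam.up_zero s (s + 1) (by omega) _ hsupp _ J (by omega)
    intro S hS
    have hc2 : M c = 0 := hc
    have := congrFun hc2 ⟨S, mem_powersetCard.2 ⟨subset_univ _, hS⟩⟩
    exact this
  have h4 : Module.finrank ℚ (LinearMap.ker M) ≤ Module.finrank ℚ (Harm n (s + 1)) := by
    refine (finrank_le_map (ext n (s + 1)) (LinearMap.ker M) ?_).trans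
      (Submodule.finrank_mono h3)
    intro v _ hv
    apply ext_inj n (s + 1)
    rw [hv, map_zero]
  omega

end Pool.Agent.W448.AD
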