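import Pool.Agent.W448.AD.B
set_option autoImplicit false
open Finset

/-! Definite subspaces by recursion on the level. -/

namespace Pool.Agent.W448.AD

variable {n : ℕ}

def Pos (n s d : ℕ) : Prop :=
  ∃ V : Submodule ℚ (Finset (Fin n) → ℚ), d ≤ Module.finrank ℚ V ∧
    (∀ f ∈ V, ∀ X : Finset (Fin n), X.card ≠ s → f X = 0) ∧
    ∀ f ∈ V, f ≠ 0 → 0 < (-1) ^ s * kap s f f

def Neg (n s d : ℕ) : Prop :=
  ∃ V : Submodule ℚ (Finset (Fin n) → ℚ), d ≤ Module.finrank ℚ V ∧
    (∀ f ∈ V, ∀ X : Finset (Fin n), X.card ≠ s → f X = 0) ∧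
    ∀ f ∈ V, f ≠ 0 → (-1) ^ s * kap s f f < 0

theorem pos_zero (n : ℕ) : Pos n 0 1 := by
  classical
  refine ⟨Harm n 0, ?_, fun f hf => hf.1, fun f hf h0 => harm_pos 0 f hf h0⟩
  rw [Submodule.one_le_finrank_iff]
  intro h
  have hm : (fun X : Finset (Fin n) => if X = ∅ then (1 : ℚ) else 0) ∈ Harm n 0 := by
    refine ⟨fun X hX => ?_, fun J hJ => absurd hJ (Nat.not_lt_zero _)⟩
    have : X ≠ ∅ := fun h => hX (by rw [h]; rfl)
    simp [this]
  rw [h, Submodule.mem_bot] at hm
  have := congrFun hm ∅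
  simp at this

theorem neg_zero (n : ℕ) : Neg n 0 0 := by
  refine ⟨⊥, Nat.zero_le _, ?_, ?_⟩
  · intro f hf X _
    rw [Submodule.mem_bot] at hf
    rw [hf]; rfl
  · intro f hf h0
    exact absurd ((Submodule.mem_bot ℚ).1 hf) h0

theorem ab_pos (s : ℕ) (hn : 2 * (s + 1) ≤ n) :
    (0 : ℚ) < ((n - s - (s + 1) : ℕ) : ℚ) * ((n - s - s : ℕ) : ℚ) := by
  have h1 : 0 < n - s - (s + 1) := by omega
  have h2 : 0 < n - s - s := by omega
  have h3 : (0 : ℚ) < ((n - s - (s + 1) : ℕ) : ℚ) := Nat.cast_pos.2 h1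
  have h4 : (0 : ℚ) < ((n - s - s : ℕ) : ℚ) := Nat.cast_pos.2 h2
  exact mul_pos h3 h4

theorem neg_succ (s d : ℕ) (hn : 2 * (s + 1) ≤ n) (h : Pos n s d) : Neg n (s + 1) d := by
  obtain ⟨V, h1, h2, h3⟩ := h
  have hab := ab_pos s hn
  refine ⟨V.map (Lf s), ?_, ?_, ?_⟩
  · refine h1.trans (finrank_le_map (Lf s) V ?_)
    intro v hv h0
    by_contra hne
    have h4 := h3 v hv hne
    have h5 := kap_lift s v v
    rw [h0] at h5
    have h6 : kap (s + 1) (0 : Finset (Fin n) → ℚ) 0 = 0 := by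
      unfold kap; simp
    rw [h6] at h5
    have h7 : kap s v v = 0 := by
      rcases mul_eq_zero.1 h5.symm with h | h
      · exact absurd h hab.ne'
      · exact h
    rw [h7, mul_zero] at h4
    exact lt_irrefl _ h4
  · rintro f ⟨v, _, rfl⟩ X hX
    rw [Lf_apply, if_neg hX]
  · rintro f ⟨v, hv, rfl⟩ hf
    have hne : v ≠ 0 := fun h => hf (by rw [h, map_zero])
    have h4 := h3 v hv hne
    rw [kap_lift, pow_succ]
    nlinarith [mul_pos hab h4]

theorem pos_succ (s d : ℕ) (hn : 2 * (s + 1) ≤ n) (h : Neg n s d) :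
    Pos n (s + 1) (n.choose (s + 1) - n.choose s + d) := by
  obtain ⟨V, h1, h2, h3⟩ := h
  have hab := ab_pos s hn
  have hLpos : ∀ v ∈ V, v ≠ 0 → 0 < (-1) ^ (s + 1) * kap (s + 1) (Lf s v) (Lf s v) := by
    intro v hv hne
    have h4 := h3 v hv hne
    rw [kap_lift, pow_succ]
    nlinarith [mul_pos_of_neg_of_neg (neg_neg_of_pos hab) h4]
  refine ⟨Harm n (s + 1) ⊔ V.map (Lf s), ?_, ?_, ?_⟩
  · have hinf : Harm n (s + 1) ⊓ V.map (Lf s) = ⊥ := by
      rw [eq_bot_iff]
      rintro x ⟨hx1, v, hv, rfl⟩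
      rw [Submodule.mem_bot]
      by_contra hne
      have h4 := harm_pos (s + 1) _ hx1 hne
      rw [cross s _ v hx1, mul_zero] at h4
      exact lt_irrefl _ h4
    have h4 := Submodule.finrank_sup_add_finrank_inf_eq (Harm n (s + 1)) (V.map (Lf s))
    rw [hinf, finrank_bot, add_zero] at h4
    rw [h4]
    refine add_le_add (finrank_harm_succ s) (h1.trans (finrank_le_map (Lf s) V ?_))
    intro v hv h0
    by_contra hne
    have h5 := hLpos v hv hne
    rw [h0] at h5
    have h6 : kap (s + 1) (0 : Finset (Fin n) → ℚ) 0 = 0 := by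
      unfold kap; simp
    rw [h6, mul_zero] at h5
    exact lt_irrefl _ h5
  · intro f hf X hX
    obtain ⟨a, ha, b, ⟨v, hv, rfl⟩, rfl⟩ := Submodule.mem_sup.1 hf
    rw [Pi.add_apply, ha.1 X hX, Lf_apply, if_neg hX, add_zero]
  · intro f hf hne
    obtain ⟨a, ha, b, ⟨v, hv, rfl⟩, rfl⟩ := Submodule.mem_sup.1 hf
    have e1 : kap (s + 1) (a + Lf s v) (a + Lf s v) =
        kap (s + 1) a a + kap (s + 1) (Lf s v) (Lf s v) := by
      rw [kap_add_left, kap_add_right, kap_add_right, kap_symm (s + 1) a (Lf s v),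
        cross s a v ha]
      ring
    rw [e1, mul_add]
    have hA : 0 ≤ (-1) ^ (s + 1) * kap (s + 1) a a := by
      rw [harm_kap (s + 1) a ha]
      exact sum_nonneg (fun _ _ => sq_nonneg _)
    have hB : 0 ≤ (-1) ^ (s + 1) * kap (s + 1) (Lf s v) (Lf s v) := by
      by_cases hv0 : v = 0
      · rw [hv0, map_zero]
        have h6 : kap (s + 1) (0 : Finset (Fin n) → ℚ) 0 = 0 := by
          unfold kap; simp
        rw [h6, mul_zero]
      · exact (hLpos v hv hv0).le
    by_cases ha0 : a = 0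
    · have hv0 : v ≠ 0 := by
        intro h
        apply hne
        rw [ha0, h, map_zero, add_zero]
      have := hLpos v hv hv0
      linarith
    · have := harm_pos (s + 1) a ha ha0
      linarith

/-- dimension of the nonnegative part -/
def pd (n : ℕ) : ℕ → ℕ
  | 0 => 1
  | s + 1 => n.choose (s + 1) - pd n s

theorem both (s : ℕ) (hn : 2 * s ≤ n) :
    Pos n s (pd n s) ∧ (∀ t, s = t + 1 → Neg n s (pd n t)) ∧ pd n s ≤ n.choose s := by
  induction s with
  | zero =>
    refine ⟨pos_zero n, fun t ht => by omega, ?_⟩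
    simp [pd]
  | succ s ih =>
    obtain ⟨h1, h2, h3⟩ := ih (by omega)
    have hNeg : Neg n (s + 1) (pd n s) := neg_succ s _ hn h1
    have hmono : n.choose s ≤ n.choose (s + 1) := by
      exact Nat.choose_le_succ_of_lt_half_left (by omega)
    refine ⟨?_, ?_, ?_⟩
    · cases s with
      | zero =>
        have := pos_succ 0 0 hn (neg_zero n)
        simpa [pd] using this
      | succ s =>
        have h4 := pos_succ (s + 1) _ hn (h2 s rfl)
        have h5 : n.choose (s + 1 + 1) - n.choose (s + 1) + pd n s = pd n (s + 1 + 1) := by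
          have h6 : pd n (s + 1 + 1) = n.choose (s + 1 + 1) - pd n (s + 1) := rfl
          have h7 : pd n (s + 1) = n.choose (s + 1) - pd n s := rfl
          have h8 : pd n s ≤ n.choose (s + 1) := by
            have hh : pd n s ≤ n.choose s := by
              cases s with
              | zero => simp [pd]
              | succ s => exact Nat.sub_le _ _
            exact hh.trans (Nat.choose_le_succ_of_lt_half_left (by omega))
          omega
        rw [h5] at h4
        exact h4
    · intro t ht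
      have : t = s := by omega
      rw [this]
      exact hNeg
    · exact Nat.sub_le _ _

end Pool.Agent.W448.AD
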