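import Pool.Agent.W448.AD.C
set_option autoImplicit false
open Finset

/-! The kernel on pairs of sets. -/

namespace Pool.Agent.W448.AD

variable {n : ℕ}

def ch (X : Finset (Fin n)) (i : Fin n) : ℚ := if i ∈ X then -1 else 1

def aa (X Y : Finset (Fin n)) (i : Fin n) : ℚ := (1 / 2) * (-ch X i + ch Y i)

def ev (n s : ℕ) : Finset (Finset (Fin n)) :=
  (univ : Finset (Finset (Fin n))).filter (fun U => Even U.card ∧ U.card ≤ 2 * s)

def NN (s : ℕ) (X Y : Finset (Fin n)) : ℚ := ∑ U ∈ ev n s, ∏ i ∈ U, aa X Y i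

theorem aa_self (X : Finset (Fin n)) (i : Fin n) : aa X X i = 0 := by
  unfold aa; ring

theorem aa_left (X Y : Finset (Fin n)) (i : Fin n) (h : i ∈ X \ Y) : aa X Y i = 1 := by
  rw [mem_sdiff] at h
  unfold aa ch
  rw [if_pos h.1, if_neg h.2]; norm_num

theorem aa_right (X Y : Finset (Fin n)) (i : Fin n) (h : i ∈ Y \ X) : aa X Y i = -1 := by
  rw [mem_sdiff] at h
  unfold aa ch
  rw [if_neg h.2, if_pos h.1]; norm_num

theorem aa_other (X Y : Finset (Fin n)) (i : Fin n) (h : i ∉ symmDiff X Y) : aa X Y i = 0 := by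
  rw [mem_symmDiff] at h
  unfold aa ch
  by_cases hx : i ∈ X
  · by_cases hy : i ∈ Y
    · rw [if_pos hx, if_pos hy]; norm_num
    · exact absurd (Or.inl ⟨hx, hy⟩) h
  · by_cases hy : i ∈ Y
    · exact absurd (Or.inr ⟨hy, hx⟩) h
    · rw [if_neg hx, if_neg hy]; norm_num

theorem NN_self (s : ℕ) (X : Finset (Fin n)) : NN s X X = 1 := by
  classical
  unfold NN
  rw [sum_eq_single ∅]
  · simp
  · intro U _ hU
    obtain ⟨i, hi⟩ := nonempty_iff_ne_empty.2 hU
    exact prod_eq_zero hi (aa_self X i)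
  · intro h
    exfalso
    apply h
    unfold ev
    simp

theorem NN_zero (s : ℕ) (X Y : Finset (Fin n)) (h1 : (X \ Y).Nonempty) (h2 : (Y \ X).Nonempty)
    (h3 : (symmDiff X Y).card ≤ 2 * s + 1) : NN s X Y = 0 := by
  classical
  have e1 : NN s X Y = ∑ U : Finset (Fin n), (1 + (-1) ^ U.card) / 2 * ∏ i ∈ U, aa X Y i := by
    unfold NN
    symm
    rw [← sum_subset (subset_univ (ev n s))]
    · apply sum_congr rfl
      intro U hU
      unfold ev at hU
      rw [mem_filter] at hU
      rw [hU.2.1.neg_one_pow]; ring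
    · intro U _ hU
      unfold ev at hU
      rw [mem_filter] at hU
      by_cases he : Even U.card
      · have hc : ¬ U.card ≤ 2 * s := fun h => hU ⟨mem_univ _, he, h⟩
        obtain ⟨m, hm⟩ := he
        have hns : ¬ U ⊆ symmDiff X Y := by
          intro h
          have := card_le_card h
          omega
        rw [not_subset] at hns
        obtain ⟨i, hi, hi2⟩ := hns
        rw [prod_eq_zero hi (aa_other X Y i hi2), mul_zero]
      · rw [Nat.not_even_iff_odd] at he
        rw [he.neg_one_pow]; ring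
  have e2 : ∑ U : Finset (Fin n), (1 + (-1) ^ U.card) / 2 * ∏ i ∈ U, aa X Y i =
      1 / 2 * (∏ i : Fin n, (1 + aa X Y i) + ∏ i : Fin n, (1 + -aa X Y i)) := by
    rw [prod_one_add, prod_one_add, powerset_univ, ← sum_add_distrib, mul_sum]
    apply sum_congr rfl
    intro U _
    have : ∏ i ∈ U, -aa X Y i = (-1) ^ U.card * ∏ i ∈ U, aa X Y i := by
      rw [← prod_const, ← prod_mul_distrib]
      apply prod_congr rfl
      intro i _
      ring
    rw [this]; ring
  obtain ⟨i, hi⟩ := h1
  obtain ⟨j, hj⟩ := h2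
  have z1 : ∏ i : Fin n, (1 + aa X Y i) = 0 :=
    prod_eq_zero (mem_univ j) (by rw [aa_right X Y j hj]; norm_num)
  have z2 : ∏ i : Fin n, (1 + -aa X Y i) = 0 :=
    prod_eq_zero (mem_univ i) (by rw [aa_left X Y i hi]; norm_num)
  rw [e1, e2, z1, z2]; norm_num

/-- characters -/
def cc (T X : Finset (Fin n)) : ℚ := ∏ i ∈ T, ch X i

/-- transform -/
def tr (c : Finset (Fin n) → ℚ) (T : Finset (Fin n)) : ℚ := ∑ X, c X * cc T X

theorem prod_aa (X Y U : Finset (Fin n)) : ∏ i ∈ U, aa X Y i =
    ∑ T ∈ U.powerset, (1 / 2) ^ U.card * (-1) ^ T.card * (cc T X * cc (U \ T) Y) := by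
  classical
  have h1 : ∏ i ∈ U, aa X Y i = (1 / 2) ^ U.card * ∏ i ∈ U, (-ch X i + ch Y i) := by
    rw [← prod_const, ← prod_mul_distrib]
    rfl
  rw [h1, prod_add, mul_sum]
  apply sum_congr rfl
  intro T _
  have : ∏ i ∈ T, -ch X i = (-1) ^ T.card * cc T X := by
    unfold cc
    rw [← prod_const, ← prod_mul_distrib]
    apply prod_congr rfl
    intro i _
    ring
  rw [this]
  unfold cc
  ring

theorem quad (s : ℕ) (c : Finset (Fin n) → ℚ) :
    ∑ X, ∑ Y, c X * c Y * NN s X Y =
      ∑ U ∈ ev n s, ∑ T ∈ U.powerset, (1 / 2) ^ U.card * (-1) ^ T.card * (tr c T * tr c (U \ T)) := by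
  classical
  have h1 : ∀ X Y : Finset (Fin n), c X * c Y * NN s X Y = ∑ U ∈ ev n s, ∑ T ∈ U.powerset,
      (1 / 2) ^ U.card * (-1) ^ T.card * ((c X * cc T X) * (c Y * cc (U \ T) Y)) := by
    intro X Y
    unfold NN
    rw [mul_sum]
    apply sum_congr rfl
    intro U _
    rw [prod_aa, mul_sum]
    apply sum_congr rfl
    intro T _
    ring
  simp_rw [h1]
  have h2 : ∀ X : Finset (Fin n), ∑ Y, ∑ U ∈ ev n s, ∑ T ∈ U.powerset,
      (1 / 2) ^ U.card * (-1) ^ T.card * ((c X * cc T X) * (c Y * cc (U \ T) Y)) =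
      ∑ U ∈ ev n s, ∑ T ∈ U.powerset,
      (1 / 2) ^ U.card * (-1) ^ T.card * ((c X * cc T X) * tr c (U \ T)) := by
    intro X
    rw [sum_comm]
    apply sum_congr rfl
    intro U _
    rw [sum_comm]
    apply sum_congr rfl
    intro T _
    unfold tr
    rw [mul_sum, mul_sum]
  simp_rw [h2]
  rw [sum_comm]
  apply sum_congr rfl
  intro U _
  rw [sum_comm]
  apply sum_congr rfl
  intro T _
  conv_rhs => unfold tr
  rw [sum_mul, mul_sum]
  rfl

theorem pairs_kap (s : ℕ) (f : Finset (Fin n) → ℚ) :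
    ∑ U ∈ powersetCard (2 * s) (univ : Finset (Fin n)), ∑ T ∈ powersetCard s U, f T * f (U \ T) =
      kap s f f := by
  classical
  unfold kap
  rw [sum_comm' (t' := powersetCard s (univ : Finset (Fin n)))
    (s' := fun T => (powersetCard (2 * s) (univ : Finset (Fin n))).filter (fun U => T ⊆ U))]
  · apply sum_congr rfl
    intro T hT
    rw [mem_powersetCard] at hT
    rw [← sum_filter]
    refine sum_bij' (fun U _ => U \ T) (fun T' _ => T ∪ T') ?_ ?_ ?_ ?_ ?_
    · intro U hU
      simp only [mem_filter, mem_powersetCard, subset_univ, true_and] at hU ⊢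
      refine ⟨?_, disjoint_sdiff⟩
      rw [card_sdiff_of_subset hU.2, hU.1, hT.2]; omega
    · intro T' hT'
      simp only [mem_filter, mem_powersetCard, subset_univ, true_and] at hT' ⊢
      refine ⟨?_, subset_union_left⟩
      rw [card_union_of_disjoint hT'.2, hT.2, hT'.1]; omega
    · intro U hU
      simp only [mem_filter] at hU
      exact union_sdiff_of_subset hU.2
    · intro T' hT'
      simp only [mem_filter] at hT'
      exact union_sdiff_cancel_left hT'.2
    · intro U _
      rfl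
  · intro U T
    simp only [mem_filter, mem_powersetCard, subset_univ, true_and]
    tauto

/-- if the low transform vanishes only disjoint pairs of `s`-sets survive -/
theorem quad_low (s : ℕ) (c : Finset (Fin n) → ℚ)
    (h : ∀ T : Finset (Fin n), T.card < s → tr c T = 0) :
    ∑ X, ∑ Y, c X * c Y * NN s X Y = (1 / 2) ^ (2 * s) * ((-1) ^ s * kap s (tr c) (tr c)) := by
  classical
  rw [quad, ← pairs_kap]
  have hsub : powersetCard (2 * s) (univ : Finset (Fin n)) ⊆ ev n s := by
    intro U hU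
    rw [mem_powersetCard] at hU
    unfold ev
    rw [mem_filter]
    refine ⟨mem_univ _, ?_, hU.2.le⟩
    rw [hU.2]; exact even_two_mul s
  rw [← sum_subset hsub]
  · rw [mul_sum, mul_sum]
    apply sum_congr rfl
    intro U hU
    rw [mem_powersetCard] at hU
    have hsub2 : powersetCard s U ⊆ U.powerset := fun T hT => by
      rw [mem_powerset]; exact (mem_powersetCard.1 hT).1
    rw [← sum_subset hsub2]
    · rw [mul_sum, mul_sum]
      apply sum_congr rfl
      intro T hT
      rw [(mem_powersetCard.1 hT).2, hU.2]; ring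
    · intro T hT hT2
      rw [mem_powerset] at hT
      have hc : T.card ≠ s := fun h => hT2 (mem_powersetCard.2 ⟨hT, h⟩)
      have hc2 := card_sdiff_of_subset hT
      have hc3 := card_le_card hT
      rw [hU.2] at hc2 hc3
      by_cases hl : T.card < s
      · rw [h T hl]; ring
      · rw [h (U \ T) (by omega)]; ring
  · intro U hU hU2
    unfold ev at hU
    rw [mem_filter] at hU
    have hc : U.card ≠ 2 * s := fun h => hU2 (mem_powersetCard.2 ⟨subset_univ _, h⟩)
    have hlt : U.card < 2 * s := lt_of_le_of_ne hU.2.2 hc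
    apply sum_eq_zero
    intro T hT
    rw [mem_powerset] at hT
    have hc2 := card_sdiff_of_subset hT
    have hc3 := card_le_card hT
    by_cases hl : T.card < s
    · rw [h T hl]; ring
    · rw [h (U \ T) (by omega)]; ring

end Pool.Agent.W448.AD
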